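import Pool.Agent.Lib.MP_1c0a46_co.Mg.G001

/-!
# (4,3)-colourings are good
-/

set_option autoImplicit false

namespace Pool.Agent.EG

/-- Colourings in which all four-sets of vertices see three colours are good. -/
theorem good_of_four {n k : ℕ} (c : Sym2 (Fin n) → Fin k)
    (h : ∀ S : Finset (Fin n), S.card = 4 →
      3 ≤ (((S ×ˢ S).filter (fun p : Fin n × Fin n => p.1 ≠ p.2)).image
        (fun p : Fin n × Fin n => c s(p.1, p.2))).card) :
    Good (fun x y => c s(x, y)) := by
  refine ⟨fun x y => by rw [Sym2.eq_swap], ?_⟩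
  intro x x' u u' hxx huu hxu hxu' hx'u hx'u' h1 h2 h3 h4
  have hS : ({x, x', u, u'} : Finset (Fin n)).card = 4 := by
    rw [Finset.card_insert_of_notMem, Finset.card_insert_of_notMem, Finset.card_insert_of_notMem,
      Finset.card_singleton]
    · simpa using huu
    · simp [hx'u, hx'u']
    · simp [hxx, hxu, hxu']
  have h3' := h _ hS
  have hsub : ((({x, x', u, u'} : Finset (Fin n)) ×ˢ ({x, x', u, u'} : Finset (Fin n))).filter
      (fun p : Fin n × Fin n => p.1 ≠ p.2)).image (fun p : Fin n × Fin n => c s(p.1, p.2)) ⊆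
      {c s(x, u), c s(x, x')} := by
    intro a ha
    simp only [Finset.mem_image, Finset.mem_filter, Finset.mem_product, Finset.mem_insert,
      Finset.mem_singleton, Prod.exists] at ha ⊢
    obtain ⟨p, r, ⟨⟨hp, hr⟩, hpr⟩, rfl⟩ := ha
    have e1 : s(x', x) = s(x, x') := Sym2.eq_swap
    have e2 : s(u, x) = s(x, u) := Sym2.eq_swap
    have e3 : s(u', x) = s(x, u') := Sym2.eq_swap
    have e4 : s(u, x') = s(x', u) := Sym2.eq_swap
    have e5 : s(u', x') = s(x', u') := Sym2.eq_swap
    have e6 : s(u', u) = s(u, u') := Sym2.eq_swap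
    rcases hp with rfl | rfl | rfl | rfl <;> rcases hr with rfl | rfl | rfl | rfl <;>
      first
      | exact absurd rfl hpr
      | simp only [e1, e2, e3, e4, e5, e6, ← h1, ← h2, ← h3, ← h4, true_or, or_true]
  have := Finset.card_le_card hsub
  have h2' : ({c s(x, u), c s(x, x')} : Finset (Fin k)).card ≤ 2 := Finset.card_le_two
  omega

end Pool.Agent.EG
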