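import Pool.Agent.Lib.MP_1c0a46_co.Mg.G004
import Pool.Agent.Lib.MP_1c0a46_co.Fin2

/-!
# The theorem
-/

set_option autoImplicit false

namespace Pool.Agent.EG

theorem main : ∀ C : ℝ, ∃ N : ℕ, ∀ n : ℕ, N ≤ n → ∀ k : ℕ, ∀ c : Sym2 (Fin n) → Fin k,
      (∀ S : Finset (Fin n), S.card = 4 →
        3 ≤ (((S ×ˢ S).filter (fun p : Fin n × Fin n => p.1 ≠ p.2)).image
              (fun p : Fin n × Fin n => c s(p.1, p.2))).card) →
      C * Real.log (n : ℝ) ≤ (k : ℝ) := by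
  intro C
  obtain ⟨w0, hw0⟩ := good_colours (2 * ⌈C⌉₊)
  refine ⟨2 ^ (w0 + 1), fun n hn k c hc => ?_⟩
  set w := Nat.log 2 n with hw
  have hn0 : n ≠ 0 := by
    have : 0 < 2 ^ (w0 + 1) := by positivity
    omega
  have hwn : 2 ^ w ≤ n := Nat.pow_log_le_self 2 hn0
  have hwn' : n < 2 ^ (w + 1) := Nat.lt_pow_succ_log_self (by norm_num) n
  have hw1 : w0 + 1 ≤ w := (Nat.le_log_iff_pow_le (by norm_num) hn0).2 hn
  obtain ⟨W, -, hW⟩ := Finset.exists_subset_card_eq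
    (s := (Finset.univ : Finset (Fin n))) (n := 2 ^ w) (by simpa using hwn)
  have h := hw0 w (by omega) (Fin n) (Fin k) _ (good_of_four c hc) W hW
  rw [Fintype.card_fin] at h
  have h' : ((2 * ⌈C⌉₊ * w : ℕ) : ℝ) ≤ (k : ℝ) := by exact_mod_cast h.le
  refine le_trans ?_ h'
  have hlog : Real.log n ≤ 2 * w := by
    have h1 : Real.log n ≤ Real.log ((2 : ℝ) ^ (w + 1)) := by
      apply Real.log_le_log
      · exact_mod_cast Nat.pos_of_ne_zero hn0
      · exact_mod_cast hwn'.le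
    rw [Real.log_pow] at h1
    have h2 : Real.log 2 ≤ 1 := by
      have := Real.log_two_lt_d9
      linarith
    have h3 : ((w + 1 : ℕ) : ℝ) * Real.log 2 ≤ ((w + 1 : ℕ) : ℝ) * 1 :=
      mul_le_mul_of_nonneg_left h2 (by positivity)
    have h4 : (1 : ℝ) ≤ w := by exact_mod_cast (by omega : 1 ≤ w)
    push_cast at h1 h3
    linarith
  have hlog0 : 0 ≤ Real.log n := Real.log_natCast_nonneg n
  have hC : C ≤ (⌈C⌉₊ : ℝ) := Nat.le_ceil C
  calc C * Real.log n ≤ (⌈C⌉₊ : ℝ) * Real.log n := mul_le_mul_of_nonneg_right hC hlog0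
    _ ≤ (⌈C⌉₊ : ℝ) * (2 * w) := mul_le_mul_of_nonneg_left hlog (by positivity)
    _ = ((2 * ⌈C⌉₊ * w : ℕ) : ℝ) := by push_cast; ring

end Pool.Agent.EG
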